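import Pool.Agent.H29.AO.CPR

/-!
Module COW: covering small sets of the extension.
-/

set_option linter.unusedVariables false
set_option linter.unusedSectionVars false
set_option synthInstance.maxSize 100000

namespace AO.BP

open SW

theorem ao_cow (hcpr : CPRStmt) (hcvc : CVCStmt) (hszf : SZFStmt) (half : ALFStmt) :
    COWStmt := by
  intro M _ _ _ F G hRI hc hG _ n X A hA hs
  have tf := traF hG
  have ef := embF hG
  obtain ⟨w', hw', f, hf⟩ := hs
  obtain ⟨w, hw⟩ := (half M).ex n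
  have e0 : w' = emb F G w :=
    (half (Ext F G)).uniq n _ _ hw' ((hcpr M F G hRI hc hG).alf n w hw)
  subst e0
  have hcbs : ∀ y : Ext F G, Cb (sing y) := fun y => (ma_cba (Ext F G)).fin (by
    have e : sing y = ins y emp := ext fun z => by
      rw [mem_sing, mem_ins]
      exact ⟨fun h => Or.inr h, fun h => h.resolve_left (not_mem_emp z)⟩
    rw [e]
    exact finF.ins finF.emp)
  obtain ⟨H, h1, h2⟩ := hcvc M F G hRI hc hG w X (fun x => sing (app f x))
    inferInstance (fun _ _ => hcbs _)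
  have S := hszf M
  have hfH : Fn1 (fun x : M => app H x) := inferInstance
  refine ⟨sUn (img w (fun x => app H x)), fun y hy => ?_,
    S.iUn n w _ hfH (S.self n w hw) fun y hy =>
      S.mono 0 n _ (Nat.zero_le _) ((S.cb _).2 (h1 y hy).1), fun a ha => ?_⟩
  · rw [mem_sUn] at hy
    obtain ⟨z, hz, hyz⟩ := hy
    obtain ⟨x, hx, rfl⟩ := (mem_img' hfH).1 hz
    exact (h1 x hx).2 _ hyz
  · obtain ⟨x0, hx0, rfl⟩ := ef.trans _ _ (hA a ha)
    obtain ⟨y, hy, e⟩ := hf _ ha
    obtain ⟨y0, hy0, rfl⟩ := ef.trans _ _ hy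
    rw [ef.mem, mem_sUn]
    exact ⟨app H y0, (mem_img' hfH).2 ⟨y0, hy0, rfl⟩, h2 y0 x0 hy0 hx0 (mem_sing.2 e)⟩

end AO.BP
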