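import Pool.Agent.H36.AO.PStmts
import Pool.Agent.H94.CC.CTN
import Pool.Agent.H31.MA.WX
import Pool.Agent.H93.MA.CBA

/-!
Module CPR: cardinalities are preserved by ccc forcing.
-/

set_option linter.unusedVariables false
set_option linter.unusedSectionVars false
set_option synthInstance.maxSize 100000

namespace AO.BP

open SW

/-- coverings of the model are coverings of the extension -/
theorem cpr_img {M : Type} [SetStr M] [ZF M] {F : FPoset M} {G : M → Prop} (hG : Gen F G)
    [ZF (Ext F G)] {v a : M} (h : Img v a) : Img (emb F G v) (emb F G a) := by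
  obtain ⟨f, hf⟩ := h
  have hfn : Fn1 (fun x : M => app f x) := inferInstance
  refine ⟨emb F G (gr v (fun x => app f x)), fun y hy => ?_⟩
  obtain ⟨y, hy1, rfl⟩ := (embF hG).trans _ _ hy
  obtain ⟨x, hx, e⟩ := hf y hy1
  refine ⟨emb F G x, ((embF hG).mem _ _).2 hx, ?_⟩
  rw [CC.app_emb_gr hG hfn hx, e]

theorem ao_cpr (hcvc : CVCStmt) (hszf : SZFStmt) (half : ALFStmt) : CPRStmt := by
  intro M _ _ _ F G hRI hc hG _
  have tf := traF hG
  have ef := embF hG
  have hcbd : ∀ x : M, Cb (emb F G x) → Cb x := by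
    intro x hx
    obtain ⟨H, h1, h2⟩ := hcvc M F G hRI hc hG (sing emp) x (fun _ => emb F G x)
      inferInstance (fun _ _ => hx)
    have h3 := h1 emp (mem_sing.2 rfl)
    exact (ma_cba M).sub h3.1 fun y hy =>
      h2 emp y (mem_sing.2 rfl) hy (((embF hG).mem _ _).2 hy)
  have hcbs : ∀ y : Ext F G, Cb (sing y) := fun y => (ma_cba (Ext F G)).fin (by
    have e : sing y = ins y emp := ext fun z => by
      rw [mem_sing, mem_ins]
      exact ⟨fun h => Or.inr h, fun h => h.resolve_left (not_mem_emp z)⟩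
    rw [e]
    exact finF.ins finF.emp)
  have halF : ∀ (n : ℕ) (w : M), Alf n w → Alf n (emb F G w) := by
    intro n
    induction n with
    | zero =>
      intro w hw
      have hw' : w = om := hw
      show emb F G w = om
      rw [hw', tf.om]
    | succ n ih =>
      intro w hw
      have hw0 := hw
      obtain ⟨ho, v, hv, hn, hs⟩ := hw
      refine ⟨tf.ord w ho, emb F G v, ih v hv, ?_, fun a ha => ?_⟩
      · rintro ⟨f, hf⟩
        obtain ⟨H, h1, h2⟩ := hcvc M F G hRI hc hG v w (fun x => sing (app f x))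
          inferInstance (fun _ _ => hcbs _)
        have S := hszf M
        have hfH : Fn1 (fun x : M => app H x) := inferInstance
        have h3 : Sz n (sUn (img v (fun x => app H x))) :=
          S.iUn n v _ hfH (S.self n v hv) fun y hy =>
            S.mono 0 n _ (Nat.zero_le _) ((S.cb _).2 (h1 y hy).1)
        refine S.not n w hw0 (S.sub n _ _ h3 fun y hy => ?_)
        obtain ⟨x, hx, e⟩ := hf (emb F G y) ((ef.mem _ _).2 hy)
        obtain ⟨x, hx1, rfl⟩ := ef.trans _ _ hx
        rw [mem_sUn]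
        exact ⟨app H x, (mem_img' hfH).2 ⟨x, hx1, rfl⟩,
          h2 x y hx1 hy (mem_sing.2 e)⟩
      · obtain ⟨b, hb, rfl⟩ := ef.trans _ _ ha
        exact cpr_img hG (hs b hb)
  refine ⟨fun x hx => wx_cb hG hx, hcbd, halF, fun n x hx => ?_⟩
  obtain ⟨w, hw, hi⟩ := hx
  exact ⟨emb F G w, halF n w hw, cpr_img hG hi⟩

end AO.BP
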