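import Pool.Agent.H36.AO.PStmts

/-!
Module KLD: a new real of the second side has at most one old neighbour.
-/

set_option linter.unusedVariables false
set_option linter.unusedSectionVars false
set_option synthInstance.maxSize 100000

namespace AO.BP

open SW

theorem ao_kld (hkla : KLAStmt) (hevf : EVFStmt) (hful : FULStmt) (hxfc : XFCStmt)
    (hcfa : CFAStmt) : KLDStmt := by
  intro M _ _ _ l T F G hB _ D hclo hsub x hxs hnx y y' hy hy' hz hz'
  have ev := hevf M F G hB.mr.std hB.gen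
  obtain ⟨σ, hσ, rfl⟩ := hful M F G hB.gen x hxs
  obtain ⟨τ, hτ, rfl⟩ := hy
  obtain ⟨τ', hτ', rfl⟩ := hy'
  have hcf := hcfa M l T F hB.mr hB.gf
  have hgd : Gd T D := fun d d' n hd hd' hne hn hn' => hclo d n hd hn
  have hxf := hxfc M l T F.P D hcf hgd
  rw [ev.rb, ev.rb] at hz hz'
  have h := hkla M F G D hB.mr hB.gf.le hB.gen hxf σ τ τ' hσ hτ hτ' (fun ρ hρ e => hnx
    ⟨ρ, hρ, ev.inj _ _ (ev.sub _) (ev.sub _) (by rw [ev.rb, ev.rb, e])⟩) hz hz'
  exact ev.inj _ _ (ev.sub _) (ev.sub _) (by rw [ev.rb, ev.rb, h])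

end AO.BP
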